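import Mathlib

set_option autoImplicit false

namespace Pool.Agent.Results.MP_611bc7_al.Twist

open MvPolynomial

/-- The free non-unital commutative associative algebra on `X`. -/
def Fr (k : Type) [Field k] (X : Finset ℕ) : NonUnitalSubalgebra k (MvPolynomial X k) where
  carrier := {p | constantCoeff p = 0}
  zero_mem' := map_zero _
  add_mem' := fun {a b} ha hb => by
    rw [Set.mem_ofPred_eq] at *
    rw [map_add, ha, hb, add_zero]
  mul_mem' := fun {a b} ha _ => by
    rw [Set.mem_ofPred_eq] at *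
    rw [map_mul, ha, zero_mul]
  smul_mem' := fun c a ha => by
    change constantCoeff (c • a) = 0
    rw [constantCoeff_smul, show constantCoeff a = 0 from ha, smul_zero]

/-- Homomorphisms of free algebras. -/
def Hm (k : Type) [Field k] (X Y : Finset ℕ) : Type := Fr k X →ₙₐ[k] Fr k Y

/-- The identity homomorphism. -/
noncomputable def Hm.id (k : Type) [Field k] (X : Finset ℕ) : Hm k X X := NonUnitalAlgHom.id k _

/-- Composition of homomorphisms. -/
noncomputable def Hm.comp {k : Type} [Field k] {X Y Z : Finset ℕ} (ν : Hm k Y Z) (μ : Hm k X Y) : Hm k X Z :=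
  NonUnitalAlgHom.comp ν μ

/-- Pairs of elements of a free algebra. -/
def Pr (k : Type) [Field k] (X : Finset ℕ) : Type := Fr k X × Fr k X

/-- Two homomorphisms agree modulo `T`. -/
def Agree {k : Type} [Field k] {X Y : Finset ℕ} (μ₁ μ₂ : Hm k X Y) (T : Set (Pr k Y)) : Prop :=
  ∀ f : Fr k X, ((μ₁.toFun f, μ₂.toFun f) : Pr k Y) ∈ T

/-- Automorphisms of the category of finitely generated free algebras. -/
structure CatAut (k : Type) [Field k] where
  obj : Finset ℕ ≃ Finset ℕ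
  map : ∀ X Y, Hm k X Y ≃ Hm k (obj X) (obj Y)
  map_id : ∀ X, map X X (Hm.id k X) = Hm.id k (obj X)
  map_comp : ∀ X Y Z (μ : Hm k X Y) (ν : Hm k Y Z),
    map X Z (ν.comp μ) = (map Y Z ν).comp (map X Y μ)

section
variable (k : Type) [Field k]

/-- Homomorphisms from a free algebra to `H`. -/
def Pt (H : Type) [NonUnitalCommRing H] [Module k H] (X : Finset ℕ) : Type := Fr k X →ₙₐ[k] H

/-- The kernel congruence. -/
def Pt.ker {H : Type} [NonUnitalCommRing H] [Module k H] {X : Finset ℕ} (ν : Pt k H X) :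
    Set (Pr k X) := {p | ν.toFun p.1 = ν.toFun p.2}

/-- The `H`-closure of `T`. -/
def clo (H : Type) [NonUnitalCommRing H] [Module k H] {X : Finset ℕ} (T : Set (Pr k X)) :
    Set (Pr k X) := {p | ∀ ν : Pt k H X, T ⊆ ν.ker → p ∈ ν.ker}

/-- The `H`-closed sets. -/
def Cl (H : Type) [NonUnitalCommRing H] [Module k H] (X : Finset ℕ) :
    Set (Set (Pr k X)) := {T | T = clo k H T}

variable (H₁ H₂ : Type) [NonUnitalCommRing H₁] [Module k H₁] [NonUnitalCommRing H₂] [Module k H₂]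

/-- Geometric equivalence. -/
def GeomEq : Prop := ∀ X, Cl k H₁ X = Cl k H₂ X

/-- Automorphic equivalence. -/
def AutEq : Prop :=
  ∃ (Φ : CatAut k) (α : ∀ X, Cl k H₁ X ≃ Cl k H₂ (Φ.obj X)),
    ∀ X Y (μ₁ μ₂ : Hm k X Y) (T : Cl k H₁ Y),
      Agree μ₁ μ₂ T.1 ↔ Agree (Φ.map X Y μ₁) (Φ.map X Y μ₂) (α Y T).1

end

instance : Fact (∀ r : ℚ, r ^ 2 ≠ 2 + 0 * r) := ⟨fun r h => by
  have h1 : ((r : ℝ)) ^ 2 = 2 := by exact_mod_cast (by simpa using h : r ^ 2 = 2)
  refine irrational_sqrt_two ⟨|r|, ?_⟩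
  rw [← h1, Real.sqrt_sq_eq_abs, Rat.cast_abs]⟩

abbrev K : Type := QuadraticAlgebra ℚ 2 0

noncomputable def σ : K →+* K := starRingEnd K

theorem σσ (c : K) : σ (σ c) = c := star_star c

noncomputable def s {X : Finset ℕ} (p : Fr K X) : Fr K X := ⟨map σ p.1, by
  change constantCoeff _ = 0
  rw [constantCoeff_map, show constantCoeff p.1 = 0 from p.2, map_zero]⟩

theorem ss {X : Finset ℕ} (p : Fr K X) : s (s p) = p := Subtype.ext (by
  change map σ (map σ p.1) = p.1
  rw [map_map, show σ.comp σ = RingHom.id K from RingHom.ext σσ, map_id])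

theorem s_add {X : Finset ℕ} (p q : Fr K X) : s (p + q) = s p + s q := Subtype.ext (map_add _ _ _)
theorem s_mul {X : Finset ℕ} (p q : Fr K X) : s (p * q) = s p * s q := Subtype.ext (map_mul _ _ _)
theorem s_zero {X : Finset ℕ} : s (0 : Fr K X) = 0 := Subtype.ext (map_zero _)
theorem s_smul {X : Finset ℕ} (c : K) (p : Fr K X) : s (c • p) = σ c • s p := Subtype.ext (by
  change map σ (c • p.1) = σ c • map σ p.1
  rw [smul_eq_C_mul, smul_eq_C_mul, map_mul, map_C])

noncomputable def cj {X Y : Finset ℕ} (μ : Fr K X →ₙₐ[K] Fr K Y) : Fr K X →ₙₐ[K] Fr K Y where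
  toFun p := s (μ (s p))
  map_smul' c p := by rw [s_smul, map_smul, s_smul, σσ]; rfl
  map_zero' := by rw [s_zero, map_zero, s_zero]
  map_add' p q := by rw [s_add, map_add, s_add]
  map_mul' p q := by rw [s_mul, map_mul, s_mul]

theorem cj_apply {X Y : Finset ℕ} (μ : Fr K X →ₙₐ[K] Fr K Y) (p : Fr K X) :
    cj μ p = s (μ (s p)) := rfl

theorem cjcj {X Y : Finset ℕ} (μ : Fr K X →ₙₐ[K] Fr K Y) : cj (cj μ) = μ :=
  NonUnitalAlgHom.ext fun p => by rw [cj_apply, cj_apply, ss, ss]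

noncomputable def Φ : CatAut K where
  obj := Equiv.refl _
  map _ _ := ⟨cj, cj, cjcj, cjcj⟩
  map_id _ := NonUnitalAlgHom.ext ss
  map_comp _ _ _ _ ν := NonUnitalAlgHom.ext fun _ => congrArg (fun z => s (ν.toFun z)) (ss _).symm

def R (_ : K →+* ℝ) : Type := ℝ

noncomputable instance (f : K →+* ℝ) : CommRing (R f) := inferInstanceAs (CommRing ℝ)
noncomputable instance (f : K →+* ℝ) : Algebra K (R f) := RingHom.toAlgebra (S := R f) f

noncomputable def tw {f g : K →+* ℝ} (h : ∀ c, g c = f (σ c)) {X : Finset ℕ}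
    (ν : Fr K X →ₙₐ[K] R f) : Fr K X →ₙₐ[K] R g where
  toFun p := (ν (s p) : ℝ)
  map_smul' c p := by
    rw [s_smul, map_smul]
    exact congrArg (· * (show ℝ from ν (s p))) (h c).symm
  map_zero' := by rw [s_zero, map_zero]; rfl
  map_add' p q := by rw [s_add, map_add]; rfl
  map_mul' p q := by rw [s_mul, map_mul]; rfl

def pre {X : Finset ℕ} (T : Set (Pr K X)) : Set (Pr K X) :=
  {p | ((s p.1, s p.2) : Pr K X) ∈ T}

theorem prepre {X : Finset ℕ} (T : Set (Pr K X)) : pre (pre T) = T := by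
  ext p
  change ((s (s p.1), s (s p.2)) : Pr K X) ∈ T ↔ _
  rw [ss, ss]
  rfl

theorem pre_mem {f g : K →+* ℝ} (h : ∀ c, g c = f (σ c)) {X : Finset ℕ}
    {T : Set (Pr K X)} (hT : T ∈ Cl K (R f) X) : pre T ∈ Cl K (R g) X := by
  refine Set.Subset.antisymm (fun p hp ν hν => hν hp) fun p hp => ?_
  change ((s p.1, s p.2) : Pr K X) ∈ T
  rw [hT]
  exact fun ν hν => hp (tw h ν) fun q hq => hν hq

noncomputable def f₁ : K →+* ℝ :=
  (QuadraticAlgebra.lift ⟨√2, by simp⟩ : K →ₐ[ℚ] ℝ).toRingHom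

theorem f₁ω : f₁ QuadraticAlgebra.omega = √2 := by simp [f₁]

theorem σω : σ QuadraticAlgebra.omega = -QuadraticAlgebra.omega := by
  ext <;> simp [σ, starRingEnd_apply]

noncomputable def v (i : Fin 2) : Fr K (Finset.range 2) :=
  ⟨X ⟨i, Finset.mem_range.2 i.2⟩, constantCoeff_X _ _⟩

theorem result : ∃ (k : Type) (_ : Field k) (_ : CharZero k)
    (H₁ : Type) (_ : NonUnitalCommRing H₁) (_ : Module k H₁)
    (H₂ : Type) (_ : NonUnitalCommRing H₂) (_ : Module k H₂),
    IsScalarTower k H₁ H₁ ∧ SMulCommClass k H₁ H₁ ∧ IsScalarTower k H₂ H₂ ∧ SMulCommClass k H₂ H₂ ∧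
    AutEq k H₁ H₂ ∧ ¬ GeomEq k H₁ H₂ := by
  have h1 : ∀ c, f₁.comp σ c = f₁ (σ c) := fun _ => rfl
  have h2 : ∀ c, f₁ c = f₁.comp σ (σ c) := fun c => congrArg f₁ (σσ c).symm
  refine ⟨K, inferInstance, inferInstance, R f₁, inferInstance, inferInstance, R (f₁.comp σ),
    inferInstance, inferInstance, inferInstance, inferInstance, inferInstance, inferInstance,
    ⟨Φ, fun X => ⟨fun T => ⟨pre T.1, pre_mem h1 T.2⟩, fun T => ⟨pre T.1, pre_mem h2 T.2⟩,
      fun T => Subtype.ext (prepre _), fun T => Subtype.ext (prepre _)⟩, fun X Y μ₁ μ₂ T => ?_⟩,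
    fun h => ?_⟩
  · change _ ↔ ∀ p, ((s (s (μ₁.toFun (s p))), s (s (μ₂.toFun (s p)))) : Pr K Y) ∈ T.1
    simp only [ss]
    exact ⟨fun h p => h _, fun h p => by simpa only [ss] using h (s p)⟩
  · set T : Set (Pr K (Finset.range 2)) :=
      {(v 0 * v 0, (QuadraticAlgebra.omega : K) • (v 1 * v 1))}
    have a : clo K (R f₁) T ∈ Cl K (R f₁) _ := Set.Subset.antisymm (fun p hp ν hν => hν hp)
      fun p hp ν hν => hp ν fun q hq => hq ν hν
    have b : ((v 0, 0) : Pr K _) ∈ clo K (R f₁) T := by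
      rw [h] at a
      rw [a]
      intro (ν : _ →ₙₐ[K] _) hν
      have : ν (v 0 * v 0) = ν ((QuadraticAlgebra.omega : K) • (v 1 * v 1)) :=
        hν (a := (v 0 * v 0, (QuadraticAlgebra.omega : K) • (v 1 * v 1))) fun ν hν => hν rfl
      change ν (v 0) = ν 0
      simp only [map_mul, map_smul, map_zero] at this ⊢
      generalize ν (v 0) = x, ν (v 1) = y at this ⊢
      change ℝ at x y
      change x * x = f₁ (σ _) * (y * y) at this
      change x = (0 : ℝ)
      rw [σω, map_neg, f₁ω] at this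
      nlinarith [mul_nonneg (Real.sqrt_nonneg 2) (mul_self_nonneg y)]
    let w : Finset.range 2 → R f₁ := fun i => if i.1 = 0 then (√√2 : ℝ) else (1 : ℝ)
    let ν : Fr K (Finset.range 2) →ₙₐ[K] R f₁ :=
      (aeval w).toNonUnitalAlgHom.comp (NonUnitalSubalgebraClass.subtype _)
    have e : ∀ i, ν (v i) = w ⟨i, Finset.mem_range.2 i.2⟩ := fun i => aeval_X w _
    have : ν (v 0) = ν 0 := b ν (by
      rintro _ rfl
      change ν (v 0 * v 0) = ν ((QuadraticAlgebra.omega : K) • (v 1 * v 1))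
      simp only [map_mul, map_smul, e]
      change √√2 * √√2 = f₁ _ * ((1 : ℝ) * 1)
      rw [f₁ω, Real.mul_self_sqrt (Real.sqrt_nonneg 2), mul_one, mul_one])
    rw [e, map_zero] at this
    exact (show (0 : ℝ) < √√2 by positivity).ne' this

end Pool.Agent.Results.MP_611bc7_al.Twist
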